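import Pool.Agent.W528.HA.Stm

set_option autoImplicit false

/-!
# A primitive additive character
-/

namespace Pool.Agent.W368.HA.AX

theorem main : Pool.Agent.W528.HA.AX := by
  intro c _ L _ _ _
  have hL : ringChar L = c := ringChar.eq L c
  have hQ : ringChar ℚ_[c] = 0 := ringChar.eq ℚ_[c] 0
  have hc : ringChar ℚ_[c] ≠ ringChar L := by
    rw [hL, hQ]
    exact (Fact.out : c.Prime).ne_zero.symm
  let P := AddChar.FiniteField.primitiveChar L ℚ_[c] hc
  haveI : FiniteDimensional ℚ_[c] (CyclotomicField P.n ℚ_[c]) :=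
    IsCyclotomicExtension.finiteDimensional {(P.n : ℕ)} ℚ_[c] _
  haveI : Algebra.IsAlgebraic ℚ_[c] (CyclotomicField P.n ℚ_[c]) :=
    Algebra.IsAlgebraic.of_finite _ _
  let f : CyclotomicField P.n ℚ_[c] →ₐ[ℚ_[c]] PadicAlgCl c := IsAlgClosed.lift
  exact ⟨(f : CyclotomicField P.n ℚ_[c] →* PadicAlgCl c).compAddChar P.char,
    P.prim.compMulHom_of_isPrimitive f.injective⟩

end Pool.Agent.W368.HA.AX
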